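import Mathlib

/-!
# A dense irregular manifold without dense uniform Li–Yorke chaos

The operator is an `ℓ₁`-sum, over the members of a free ultrafilter, of forward weighted shifts.
-/

namespace Pool.Agent.Results.MP_515085_an.UltraShift

open Filter Topology Set
open scoped ENNReal

section Defs

variable {𝕜 X : Type*} [RCLike 𝕜] [NormedAddCommGroup X] [NormedSpace 𝕜 X]

/-- A vector `x` is irregular for `T`: `liminf ‖Tⁿ x‖ = 0` and `limsup ‖Tⁿ x‖ = ∞`. -/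
def Irregular (T : X →L[𝕜] X) (x : X) : Prop :=
  (∀ ε > 0, ∃ᶠ n in atTop, ‖(T ^ n) x‖ < ε) ∧ (∀ R : ℝ, ∃ᶠ n in atTop, R < ‖(T ^ n) x‖)

/-- `T` admits a dense irregular manifold. -/
def HasDenseIrregularManifold (T : X →L[𝕜] X) : Prop :=
  ∃ Y : Submodule 𝕜 X, Dense (Y : Set X) ∧ ∀ y ∈ Y, y ≠ 0 → Irregular T y

/-- `S` is uniformly Li–Yorke scrambled for `T`. -/
def UniformlyScrambled (T : X →L[𝕜] X) (S : Set X) : Prop :=
  S.Nontrivial ∧ ∃ p q : ℕ → ℕ, ∀ x ∈ S, ∀ y ∈ S, x ≠ y →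
    Tendsto (fun n => ‖(T ^ p n) x - (T ^ p n) y‖) atTop (𝓝 0) ∧
    Tendsto (fun n => ‖(T ^ q n) x - (T ^ q n) y‖) atTop atTop

/-- `T` is densely uniformly Li–Yorke chaotic. -/
def DenselyUniformlyLiYorke (T : X →L[𝕜] X) : Prop :=
  ∃ S : Set X, Dense S ∧ ¬ S.Countable ∧ UniformlyScrambled T S

end Defs

noncomputable section

section Shift

variable {𝕜 : Type*} [RCLike 𝕜] {ι : Type}

/-- the underlying function of the weighted shift -/
def shiftFun (w : ι → ℕ → ℝ) (x : ι × ℕ → 𝕜) : ι × ℕ → 𝕜 :=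
  fun i => match i.2 with
    | 0 => 0
    | k + 1 => (w i.1 k : 𝕜) * x (i.1, k)

@[simp] theorem shiftFun_zero (w : ι → ℕ → ℝ) (x : ι × ℕ → 𝕜) (a : ι) :
    shiftFun w x (a, 0) = 0 := rfl

@[simp] theorem shiftFun_succ (w : ι → ℕ → ℝ) (x : ι × ℕ → 𝕜) (a : ι) (k : ℕ) :
    shiftFun w x (a, k + 1) = (w a k : 𝕜) * x (a, k) := rfl

/-- the index shift -/
def sg (i : ι × ℕ) : ι × ℕ := (i.1, i.2 + 1)

theorem sg_inj : Function.Injective (sg : ι × ℕ → ι × ℕ) := by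
  rintro ⟨a, k⟩ ⟨b, l⟩ h
  simp only [sg, Prod.mk.injEq, Nat.add_right_cancel_iff] at h
  exact Prod.ext h.1 h.2

theorem shiftFun_off (w : ι → ℕ → ℝ) (x : ι × ℕ → 𝕜) (i : ι × ℕ) (hi : i ∉ range (sg (ι := ι))) :
    ‖shiftFun w x i‖ = 0 := by
  obtain ⟨a, k⟩ := i
  cases k with
  | zero => simp
  | succ k => exact absurd ⟨(a, k), rfl⟩ hi

theorem summable_of_lp (x : lp (fun _ : ι × ℕ => 𝕜) 1) : Summable fun i => ‖x i‖ := by
  have := (lp.memℓp x).summable (by simp)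
  simpa using this

theorem norm_eq (x : lp (fun _ : ι × ℕ => 𝕜) 1) : ‖x‖ = ∑' i, ‖x i‖ := by
  rw [lp.norm_eq_tsum_rpow (by simp)]
  simp

theorem shiftFun_summable {w : ι → ℕ → ℝ} {M : ℝ} (hw : ∀ a k, |w a k| ≤ M)
    (x : lp (fun _ : ι × ℕ => 𝕜) 1) :
    Summable (fun i => ‖shiftFun w x i‖) ∧ ∑' i, ‖shiftFun w x i‖ ≤ M * ‖x‖ := by
  have hle : ∀ i : ι × ℕ, ‖shiftFun w x (sg i)‖ ≤ M * ‖x i‖ := by
    rintro ⟨a, k⟩
    simp only [sg, shiftFun_succ, norm_mul, RCLike.norm_ofReal]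
    exact mul_le_mul_of_nonneg_right (hw a k) (norm_nonneg _)
  have hsum : Summable fun i : ι × ℕ => M * ‖x i‖ := (summable_of_lp x).mul_left M
  have h1 : Summable (fun i => ‖shiftFun w x (sg i)‖) :=
    Summable.of_nonneg_of_le (fun _ => norm_nonneg _) hle hsum
  have h2 : Summable (fun i => ‖shiftFun w x i‖) :=
    (sg_inj.summable_iff (f := fun i => ‖shiftFun w x i‖) (shiftFun_off w x)).1 h1
  refine ⟨h2, ?_⟩
  have h3 : ∑' i, ‖shiftFun w x i‖ = ∑' i, ‖shiftFun w x (sg i)‖ := by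
    refine (sg_inj.tsum_eq (f := fun i => ‖shiftFun w x i‖) ?_).symm
    intro i hi
    by_contra hcon
    exact hi (shiftFun_off w x i hcon)
  rw [h3, norm_eq, ← tsum_mul_left]
  exact h1.tsum_le_tsum hle hsum

/-- the weighted shift -/
def shiftOp (w : ι → ℕ → ℝ) (M : ℝ) (hw : ∀ a k, |w a k| ≤ M) :
    lp (fun _ : ι × ℕ => 𝕜) 1 →L[𝕜] lp (fun _ : ι × ℕ => 𝕜) 1 :=
  LinearMap.mkContinuous
    { toFun := fun x => ⟨shiftFun w x, memℓp_gen (by
        simpa using (shiftFun_summable hw x).1)⟩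
      map_add' := fun x y => by
        ext ⟨a, k⟩
        cases k with
        | zero => simp [shiftFun]
        | succ k => simp [shiftFun, mul_add]
      map_smul' := fun c x => by
        ext ⟨a, k⟩
        cases k with
        | zero => simp [shiftFun]
        | succ k => simp [shiftFun, mul_left_comm] } M
    (fun x => by
      rw [norm_eq]
      exact (shiftFun_summable hw x).2)

theorem shiftOp_succ (w : ι → ℕ → ℝ) (M : ℝ) (hw : ∀ a k, |w a k| ≤ M)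
    (x : lp (fun _ : ι × ℕ => 𝕜) 1) (a : ι) (k : ℕ) :
    shiftOp w M hw x (a, k + 1) = (w a k : 𝕜) * x (a, k) := rfl

theorem shiftOp_zero (w : ι → ℕ → ℝ) (M : ℝ) (hw : ∀ a k, |w a k| ≤ M)
    (x : lp (fun _ : ι × ℕ => 𝕜) 1) (a : ι) :
    shiftOp w M hw x (a, 0) = 0 := rfl

/-- a weighted shift with weights `C (k+1) / C k` -/
theorem pow_apply {C : ι → ℕ → ℝ} (hC : ∀ a n, 0 < C a n) (M : ℝ)
    (hw : ∀ a k, |C a (k + 1) / C a k| ≤ M) (x : lp (fun _ : ι × ℕ => 𝕜) 1) (a : ι) (k n : ℕ) :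
    (shiftOp (fun a k => C a (k + 1) / C a k) M hw ^ n) x (a, k + n) =
      ((C a (k + n) / C a k : ℝ) : 𝕜) * x (a, k) := by
  induction n with
  | zero =>
    have := (hC a k).ne'
    simp [this]
  | succ n ih =>
    rw [pow_succ', ContinuousLinearMap.mul_apply, ← add_assoc, shiftOp_succ, ih, ← mul_assoc]
    congr 1
    have h1 := (hC a k).ne'
    have h2 := (hC a (k + n)).ne'
    rw [← RCLike.ofReal_mul]
    congr 1
    field_simp

theorem le_norm_pow {C : ι → ℕ → ℝ} (hC : ∀ a n, 0 < C a n) (M : ℝ)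
    (hw : ∀ a k, |C a (k + 1) / C a k| ≤ M) (x : lp (fun _ : ι × ℕ => 𝕜) 1) (a : ι) (k n : ℕ) :
    C a (k + n) / C a k * ‖x (a, k)‖ ≤
      ‖(shiftOp (fun a k => C a (k + 1) / C a k) M hw ^ n) x‖ := by
  have h1 := lp.norm_apply_le_norm (p := 1) one_ne_zero
    ((shiftOp (fun a k => C a (k + 1) / C a k) M hw ^ n) x) (a, k + n)
  rw [pow_apply hC M hw x a k n, norm_mul, RCLike.norm_ofReal,
    abs_of_pos (div_pos (hC _ _) (hC _ _))] at h1
  exact h1

theorem pow_single [DecidableEq (ι × ℕ)] {C : ι → ℕ → ℝ} (hC : ∀ a n, 0 < C a n) (M : ℝ)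
    (hw : ∀ a k, |C a (k + 1) / C a k| ≤ M) (a : ι) (k n : ℕ) (c : 𝕜) :
    (shiftOp (fun a k => C a (k + 1) / C a k) M hw ^ n) (lp.single 1 (a, k) c) =
      lp.single 1 (a, k + n) (((C a (k + n) / C a k : ℝ) : 𝕜) * c) := by
  induction n with
  | zero =>
    have := (hC a k).ne'
    simp [this]
  | succ n ih =>
    rw [pow_succ', ContinuousLinearMap.mul_apply, ih]
    ext ⟨b, l⟩
    cases l with
    | zero =>
      rw [shiftOp_zero, lp.single_apply, Pi.single_eq_of_ne]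
      rintro h
      exact absurd (congrArg Prod.snd h) (by simp)
    | succ l =>
      rw [shiftOp_succ]
      by_cases h : (b, l) = (a, k + n)
      · obtain ⟨rfl, rfl⟩ := Prod.mk.inj h
        rw [lp.single_apply_self, ← add_assoc, lp.single_apply_self, ← mul_assoc]
        congr 1
        have h1 := (hC b k).ne'
        have h2 := (hC b (k + n)).ne'
        rw [← RCLike.ofReal_mul]
        congr 1
        field_simp
      · rw [lp.single_apply_ne _ _ _ h, lp.single_apply_ne, mul_zero]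
        intro h'
        apply h
        have e1 := congrArg Prod.fst h'
        have e2 := congrArg Prod.snd h'
        simp only at e1 e2
        exact Prod.ext e1 (by simp only; omega)

end Shift

section Weights

/-- the dips -/
def B (A : Set ℕ) : Set ℝ := ⋃ j ∈ A, Ioo (4 * 4 ^ j) (6 * 4 ^ j)

/-- the peaks -/
def G : Set ℝ := ⋃ j : ℕ, Ioo (7 * 4 ^ j) (9 * 4 ^ j)

/-- the weight products -/
def W (A : Set ℕ) (n : ℕ) : ℝ :=
  Real.exp (Metric.infDist (n : ℝ) Gᶜ - Metric.infDist (n : ℝ) (B A)ᶜ)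

theorem W_pos (A : Set ℕ) (n : ℕ) : 0 < W A n := Real.exp_pos _

theorem mem_B {A : Set ℕ} {x : ℝ} : x ∈ B A ↔ ∃ j ∈ A, 4 * 4 ^ j < x ∧ x < 6 * 4 ^ j := by
  rw [B, mem_iUnion₂]
  constructor
  · rintro ⟨j, hj, h⟩; exact ⟨j, hj, h⟩
  · rintro ⟨j, hj, h⟩; exact ⟨j, hj, h⟩

theorem mem_G {x : ℝ} : x ∈ G ↔ ∃ j : ℕ, 7 * 4 ^ j < x ∧ x < 9 * 4 ^ j := by
  simp [G]

theorem W_ratio (A : Set ℕ) (n : ℕ) : |W A (n + 1) / W A n| ≤ Real.exp 2 := by
  rw [abs_of_pos (div_pos (W_pos _ _) (W_pos _ _)), W, W, ← Real.exp_sub]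
  apply Real.exp_le_exp.2
  have hd : dist ((n + 1 : ℕ) : ℝ) (n : ℝ) = 1 := by
    rw [Real.dist_eq]; push_cast; norm_num
  have h1 := Metric.infDist_le_infDist_add_dist (s := Gᶜ) (x := ((n + 1 : ℕ) : ℝ)) (y := (n : ℝ))
  have h2 := Metric.infDist_le_infDist_add_dist (s := (B A)ᶜ) (x := (n : ℝ))
    (y := ((n + 1 : ℕ) : ℝ))
  rw [dist_comm, hd] at h2
  rw [hd] at h1
  linarith

theorem pow4_mono {i j : ℕ} (h : i < j) : (4 : ℝ) * 4 ^ i ≤ 4 ^ j := by
  rw [← pow_succ']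
  exact pow_le_pow_right₀ (by norm_num) h

theorem windows_unique {i j : ℕ} {x : ℝ} (hi : 4 * 4 ^ i < x ∧ x < 6 * 4 ^ i)
    (hj : 4 * 4 ^ j < x ∧ x < 6 * 4 ^ j) : i = j := by
  rcases lt_trichotomy i j with h | h | h
  · have := pow4_mono h
    have h0 : (0 : ℝ) < 4 ^ i := by positivity
    linarith [hi.2, hj.1]
  · exact h
  · have := pow4_mono h
    have h0 : (0 : ℝ) < 4 ^ j := by positivity
    linarith [hj.2, hi.1]

theorem not_mem_G_of_dip {j : ℕ} {x : ℝ} (h : 4 * 4 ^ j < x ∧ x < 6 * 4 ^ j) : x ∈ Gᶜ := by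
  rintro hx
  obtain ⟨i, h1, h2⟩ := mem_G.1 hx
  rcases lt_trichotomy i j with hij | hij | hij
  · have := pow4_mono hij
    have h0 : (0 : ℝ) < 4 ^ i := by positivity
    linarith [h.1]
  · subst hij
    have h0 : (0 : ℝ) < 4 ^ i := by positivity
    linarith [h.2]
  · have := pow4_mono hij
    have h0 : (0 : ℝ) < 4 ^ j := by positivity
    linarith [h.2]

theorem not_mem_B_of_peak {A : Set ℕ} {j : ℕ} {x : ℝ} (h : 7 * 4 ^ j < x ∧ x < 9 * 4 ^ j) :
    x ∈ (B A)ᶜ := by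
  rintro hx
  obtain ⟨i, _, h1, h2⟩ := mem_B.1 hx
  exact not_mem_G_of_dip ⟨h1, h2⟩ (mem_G.2 ⟨j, h⟩)

theorem lt_of_W_lt_one {A : Set ℕ} {n : ℕ} (h : W A n < 1) :
    ∃ j ∈ A, 4 * 4 ^ j < (n : ℝ) ∧ (n : ℝ) < 6 * 4 ^ j := by
  rw [← mem_B]
  by_contra hcon
  have h1 : Metric.infDist (n : ℝ) (B A)ᶜ = 0 := Metric.infDist_zero_of_mem hcon
  have h2 : 0 ≤ Metric.infDist (n : ℝ) Gᶜ := Metric.infDist_nonneg
  rw [W, h1, sub_zero] at h
  have := Real.one_le_exp h2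
  linarith

theorem W_dip {A : Set ℕ} {j : ℕ} (hj : j ∈ A) {k : ℕ} (hk : (k : ℝ) < 4 ^ j) :
    W A (k + 5 * 4 ^ j) ≤ Real.exp (k - 4 ^ j) := by
  have hk0 : (0 : ℝ) ≤ k := Nat.cast_nonneg k
  have hx : ((k + 5 * 4 ^ j : ℕ) : ℝ) = k + 5 * 4 ^ j := by push_cast; ring
  rw [W, hx]
  apply Real.exp_le_exp.2
  have h1 : Metric.infDist ((k : ℝ) + 5 * 4 ^ j) Gᶜ = 0 := by
    apply Metric.infDist_zero_of_mem
    apply not_mem_G_of_dip (j := j)
    constructor <;> linarith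
  have h2 : (4 : ℝ) ^ j - k ≤ Metric.infDist ((k : ℝ) + 5 * 4 ^ j) (B A)ᶜ := by
    have hne : (B A)ᶜ.Nonempty := by
      refine ⟨0, ?_⟩
      intro h0
      obtain ⟨i, _, h1, _⟩ := mem_B.1 h0
      have : (0 : ℝ) < 4 * 4 ^ i := by positivity
      linarith
    rw [Metric.le_infDist hne]
    intro y hy
    by_contra hlt
    push Not at hlt
    apply hy
    rw [Real.dist_eq, abs_lt] at hlt
    refine mem_B.2 ⟨j, hj, ?_, ?_⟩ <;> linarith
  linarith

theorem W_peak (A : Set ℕ) {j : ℕ} {k : ℕ} (hk : (k : ℝ) < 4 ^ j) :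
    Real.exp (4 ^ j - k) ≤ W A (k + 8 * 4 ^ j) := by
  have hk0 : (0 : ℝ) ≤ k := Nat.cast_nonneg k
  have hx : ((k + 8 * 4 ^ j : ℕ) : ℝ) = k + 8 * 4 ^ j := by push_cast; ring
  rw [W, hx]
  apply Real.exp_le_exp.2
  have h1 : Metric.infDist ((k : ℝ) + 8 * 4 ^ j) (B A)ᶜ = 0 := by
    apply Metric.infDist_zero_of_mem
    apply not_mem_B_of_peak (j := j)
    constructor <;> linarith
  have h2 : (4 : ℝ) ^ j - k ≤ Metric.infDist ((k : ℝ) + 8 * 4 ^ j) Gᶜ := by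
    have hne : Gᶜ.Nonempty := by
      refine ⟨0, ?_⟩
      intro h0
      obtain ⟨i, h1, _⟩ := mem_G.1 h0
      have : (0 : ℝ) < 7 * 4 ^ i := by positivity
      linarith
    rw [Metric.le_infDist hne]
    intro y hy
    by_contra hlt
    push Not at hlt
    apply hy
    rw [Real.dist_eq, abs_lt] at hlt
    refine mem_G.2 ⟨j, ?_, ?_⟩ <;> linarith
  linarith

end Weights

section Main

variable (𝕜 : Type) [RCLike 𝕜]

/-- the index set: members of a free ultrafilter -/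
abbrev Idx : Type := {A : Set ℕ // A ∈ hyperfilter ℕ}

/-- the space -/
abbrev XX : Type := lp (fun _ : Idx × ℕ => 𝕜) 1

/-- weights along the index set -/
def C (A : Idx) (n : ℕ) : ℝ := W A.1 n

theorem C_pos (A : Idx) (n : ℕ) : 0 < C A n := W_pos _ _

theorem C_ratio (A : Idx) (k : ℕ) : |C A (k + 1) / C A k| ≤ Real.exp 2 := W_ratio _ _

/-- the operator -/
def TT : XX 𝕜 →L[𝕜] XX 𝕜 := shiftOp (fun A k => C A (k + 1) / C A k) (Real.exp 2) C_ratio

variable {𝕜}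

theorem tendsto_pow4 (k : ℕ) : Tendsto (fun j : ℕ => (k : ℝ) - 4 ^ j) atTop atBot := by
  have h : Tendsto (fun j : ℕ => (4 : ℝ) ^ j) atTop atTop :=
    tendsto_pow_atTop_atTop_of_one_lt (by norm_num)
  exact tendsto_const_nhds.add_atBot (tendsto_neg_atTop_atBot.comp h)

theorem hyper_le_atTop : (hyperfilter ℕ : Filter ℕ) ≤ atTop := Nat.hyperfilter_le_atTop

theorem C_tendsto_zero (A : Idx) (k : ℕ) :
    Tendsto (fun j : ℕ => C A (k + 5 * 4 ^ j)) (hyperfilter ℕ) (𝓝 0) := by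
  have h1 : Tendsto (fun j : ℕ => Real.exp ((k : ℝ) - 4 ^ j)) (hyperfilter ℕ) (𝓝 0) :=
    (Real.tendsto_exp_atBot.comp (tendsto_pow4 k)).mono_left hyper_le_atTop
  have h2 : ∀ᶠ j in (hyperfilter ℕ : Filter ℕ), (k : ℝ) < 4 ^ j := by
    have h : Tendsto (fun j : ℕ => (4 : ℝ) ^ j) atTop atTop :=
      tendsto_pow_atTop_atTop_of_one_lt (by norm_num)
    exact (h.eventually_gt_atTop (k : ℝ)).filter_mono hyper_le_atTop
  have h3 : ∀ᶠ j in (hyperfilter ℕ : Filter ℕ), j ∈ A.1 := A.2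
  refine squeeze_zero' (Eventually.of_forall fun j => (C_pos A _).le) ?_ h1
  filter_upwards [h2, h3] with j h2 h3
  exact W_dip h3 h2

open Classical in
/-- the finitely supported vectors -/
def YY : Submodule 𝕜 (XX 𝕜) :=
  Submodule.span 𝕜 (range fun i : Idx × ℕ => (lp.single 1 i (1 : 𝕜) : XX 𝕜))

open Classical in
theorem YY_dense : Dense ((YY : Submodule 𝕜 (XX 𝕜)) : Set (XX 𝕜)) := by
  intro x
  have h := lp.hasSum_single (E := fun _ : Idx × ℕ => 𝕜) (p := 1) ENNReal.one_ne_top x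
  refine mem_closure_of_tendsto h (Eventually.of_forall fun s => ?_)
  refine Submodule.sum_mem _ fun i _ => ?_
  have : (lp.single 1 i (x i) : XX 𝕜) = x i • lp.single 1 i (1 : 𝕜) := by
    rw [← lp.single_smul, smul_eq_mul, mul_one]
  rw [this]
  exact Submodule.smul_mem _ _ (Submodule.subset_span ⟨i, rfl⟩)

open Classical in
theorem tendsto_single (i : Idx × ℕ) :
    Tendsto (fun j : ℕ => ‖(TT 𝕜 ^ (5 * 4 ^ j)) (lp.single 1 i (1 : 𝕜) : XX 𝕜)‖)
      (hyperfilter ℕ) (𝓝 0) := by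
  obtain ⟨A, k⟩ := i
  have h1 := (C_tendsto_zero A k).div_const (C A k)
  rw [zero_div] at h1
  refine h1.congr fun j => ?_
  rw [TT, pow_single C_pos, mul_one, lp.norm_single (by simp), RCLike.norm_ofReal,
    abs_of_pos (div_pos (C_pos _ _) (C_pos _ _))]

theorem tendsto_YY {y : XX 𝕜} (hy : y ∈ (YY : Submodule 𝕜 (XX 𝕜))) :
    Tendsto (fun j : ℕ => ‖(TT 𝕜 ^ (5 * 4 ^ j)) y‖) (hyperfilter ℕ) (𝓝 0) := by
  classical
  refine Submodule.span_induction ?_ ?_ ?_ ?_ hy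
  · rintro _ ⟨i, rfl⟩
    convert tendsto_single (𝕜 := 𝕜) i
  · simp
  · intro u v _ _ hu hv
    have h := hu.add hv
    rw [add_zero] at h
    refine squeeze_zero (fun _ => norm_nonneg _) (fun j => ?_) h
    rw [map_add]
    exact norm_add_le _ _
  · intro c u _ hu
    have h := hu.const_mul ‖c‖
    rw [mul_zero] at h
    refine squeeze_zero (fun _ => norm_nonneg _) (fun j => ?_) h
    rw [map_smul, norm_smul]

theorem irregular_YY {y : XX 𝕜} (hy : y ∈ (YY : Submodule 𝕜 (XX 𝕜))) (hy0 : y ≠ 0) :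
    Irregular (TT 𝕜) y := by
  have hpow : Tendsto (fun j : ℕ => 4 ^ j) atTop atTop :=
    tendsto_pow_atTop_atTop_of_one_lt (by norm_num)
  refine ⟨fun ε hε => ?_, fun R => ?_⟩
  · have h1 : ∀ᶠ j in (hyperfilter ℕ : Filter ℕ), ‖(TT 𝕜 ^ (5 * 4 ^ j)) y‖ < ε :=
      (tendsto_YY hy).eventually (gt_mem_nhds hε)
    have h2 : Tendsto (fun j : ℕ => 5 * 4 ^ j) (hyperfilter ℕ) atTop :=
      (tendsto_atTop_mono (fun j => by omega) hpow).mono_left hyper_le_atTop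
    exact h2.frequently h1.frequently
  · obtain ⟨⟨A, k⟩, hAk⟩ : ∃ i, y i ≠ 0 := by
      by_contra hcon
      push Not at hcon
      exact hy0 (lp.ext (funext hcon))
    have hpos : 0 < ‖y (A, k)‖ / C A k := div_pos (norm_pos_iff.2 hAk) (C_pos _ _)
    have h1 : Tendsto (fun j : ℕ => Real.exp ((4 : ℝ) ^ j - k) * (‖y (A, k)‖ / C A k))
        atTop atTop := by
      apply Tendsto.atTop_mul_const hpos
      apply Real.tendsto_exp_atTop.comp
      have h : Tendsto (fun j : ℕ => (4 : ℝ) ^ j) atTop atTop :=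
        tendsto_pow_atTop_atTop_of_one_lt (by norm_num)
      exact h.atTop_add tendsto_const_nhds
    have h2 : ∀ᶠ j : ℕ in atTop, (k : ℝ) < 4 ^ j := by
      have h : Tendsto (fun j : ℕ => (4 : ℝ) ^ j) atTop atTop :=
        tendsto_pow_atTop_atTop_of_one_lt (by norm_num)
      exact h.eventually_gt_atTop (k : ℝ)
    have h3 : ∀ᶠ j : ℕ in atTop, R < ‖(TT 𝕜 ^ (8 * 4 ^ j)) y‖ := by
      filter_upwards [h1.eventually_gt_atTop R, h2] with j h1 h2
      refine h1.trans_le ?_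
      have h4 := le_norm_pow C_pos (Real.exp 2) C_ratio y A k (8 * 4 ^ j)
      refine le_trans ?_ h4
      rw [div_mul_eq_mul_div, mul_div_assoc']
      apply div_le_div_of_nonneg_right _ (C_pos A k).le
      exact mul_le_mul_of_nonneg_right (W_peak A.1 h2) (norm_nonneg _)
    have h5 : Tendsto (fun j : ℕ => 8 * 4 ^ j) atTop atTop :=
      tendsto_atTop_mono (fun j => by omega) hpow
    exact h5.frequently h3.frequently

/-- no sequence tends to zero on a dense set -/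
theorem not_dense (p : ℕ → ℕ) (hp : ∀ A : Idx, Tendsto (fun n => C A (p n)) atTop (𝓝 0)) :
    False := by
  have hlt : ∀ A : Idx, ∀ᶠ n in atTop, ∃ j ∈ A.1, 4 * 4 ^ j < ((p n : ℕ) : ℝ) ∧
      ((p n : ℕ) : ℝ) < 6 * 4 ^ j := by
    intro A
    filter_upwards [(hp A).eventually (gt_mem_nhds zero_lt_one)] with n hn
    exact lt_of_W_lt_one hn
  classical
  let J : ℕ → ℕ := fun n => if h : ∃ j : ℕ, 4 * 4 ^ j < ((p n : ℕ) : ℝ) ∧
      ((p n : ℕ) : ℝ) < 6 * 4 ^ j then h.choose else 0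
  have hJ : ∀ A : Idx, ∀ᶠ n in atTop, J n ∈ A.1 := by
    intro A
    filter_upwards [hlt A] with n hn
    obtain ⟨j, hj, hw⟩ := hn
    have hex : ∃ j : ℕ, 4 * 4 ^ j < ((p n : ℕ) : ℝ) ∧ ((p n : ℕ) : ℝ) < 6 * 4 ^ j := ⟨j, hw⟩
    have h1 : J n = hex.choose := dif_pos hex
    rw [h1, ← windows_unique hw hex.choose_spec]
    exact hj
  have hJU : Tendsto J atTop (hyperfilter ℕ) := by
    intro A hA
    exact hJ ⟨A, hA⟩
  have hJtop : Tendsto J atTop atTop := hJU.mono_right hyper_le_atTop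
  obtain ⟨φ, hφ, hJφ⟩ := strictMono_subseq_of_tendsto_atTop hJtop
  have hcomp : Tendsto (J ∘ φ) atTop (hyperfilter ℕ) := hJU.comp hφ.tendsto_atTop
  set E : Set ℕ := (J ∘ φ) '' {m | Even m} with hE
  rcases (hyperfilter ℕ).mem_or_compl_mem E with h | h
  · obtain ⟨N, hN⟩ := eventually_atTop.1 (hcomp.eventually h)
    obtain ⟨m, hm, hme⟩ := hN (2 * N + 1) (by omega)
    have := hJφ.injective hme
    subst this
    simp only [mem_ofPred_eq] at hm
    exact (Nat.not_even_iff_odd.2 ⟨N, rfl⟩) hm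
  · obtain ⟨N, hN⟩ := eventually_atTop.1 (hcomp.eventually h)
    exact hN (2 * N) (by omega) ⟨2 * N, ⟨N, by omega⟩, rfl⟩

theorem not_uniform : ¬ DenselyUniformlyLiYorke (TT 𝕜) := by
  classical
  rintro ⟨S, hS, -, -, p, q, hpq⟩
  apply not_dense p
  intro A
  -- two points of `S` whose difference has a large coordinate
  let e : XX 𝕜 := lp.single 1 (A, 0) (1 : 𝕜)
  obtain ⟨x, hxS, hx⟩ := Metric.dense_iff.1 hS e (1 / 3) (by norm_num)
  obtain ⟨y, hyS, hy⟩ := Metric.dense_iff.1 hS 0 (1 / 3) (by norm_num)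
  have h0 : ∀ z : XX 𝕜, ‖z (A, 0)‖ ≤ ‖z‖ := fun z => lp.norm_apply_le_norm one_ne_zero z (A, 0)
  have hx1 : ‖x (A, 0) - 1‖ < 1 / 3 := by
    have h1 := h0 (x - e)
    rw [lp.coeFn_sub, Pi.sub_apply, lp.single_apply_self] at h1
    have h2 := hxS
    rw [Metric.mem_ball, dist_eq_norm] at h2
    exact h1.trans_lt h2
  have hy1 : ‖y (A, 0)‖ < 1 / 3 := by
    have h2 := hyS
    rw [Metric.mem_ball, dist_zero_right] at h2
    exact (h0 y).trans_lt h2
  set z : XX 𝕜 := x - y with hz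
  have hz1 : 1 / 3 ≤ ‖z (A, 0)‖ := by
    rw [hz, lp.coeFn_sub, Pi.sub_apply]
    have h3 : ‖(1 : 𝕜)‖ ≤ ‖x (A, 0) - y (A, 0)‖ + ‖x (A, 0) - 1‖ + ‖y (A, 0)‖ := by
      have : (1 : 𝕜) = (x (A, 0) - y (A, 0)) - (x (A, 0) - 1) + y (A, 0) := by ring
      calc ‖(1 : 𝕜)‖ = ‖(x (A, 0) - y (A, 0)) - (x (A, 0) - 1) + y (A, 0)‖ := by rw [← this]
        _ ≤ _ := (norm_add_le _ _).trans (add_le_add_left (norm_sub_le _ _) _)
    rw [norm_one] at h3
    linarith
  have hxy : x ≠ y := by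
    rintro rfl
    rw [hz, sub_self] at hz1
    simp at hz1
    norm_num at hz1
  have hlim := (hpq x hx y hy hxy).1
  have hC0 := C_pos A 0
  have h4 : ∀ n, C A (p n) ≤ 3 * C A 0 * ‖(TT 𝕜 ^ p n) x - (TT 𝕜 ^ p n) y‖ := by
    intro n
    rw [← map_sub]
    have h5 := le_norm_pow C_pos (Real.exp 2) C_ratio z A 0 (p n)
    rw [zero_add] at h5
    have h6 : C A (p n) / C A 0 * (1 / 3) ≤ ‖(TT 𝕜 ^ p n) z‖ :=
      (mul_le_mul_of_nonneg_left hz1 (div_pos (C_pos _ _) hC0).le).trans h5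
    rw [div_mul_eq_mul_div, div_le_iff₀ hC0] at h6
    linarith
  have h7 := hlim.const_mul (3 * C A 0)
  rw [mul_zero] at h7
  exact squeeze_zero (fun n => (C_pos A _).le) h4 h7

end Main

/-- There are a Banach space `X` over `𝕜` (`ℝ` or `ℂ`) and a bounded operator `T` on `X` which
admits a dense irregular manifold but is not densely uniformly Li–Yorke chaotic. -/
theorem result (𝕜 : Type) [RCLike 𝕜] : ∃ (X : Type) (_ : NormedAddCommGroup X)
    (_ : NormedSpace 𝕜 X) (_ : CompleteSpace X) (T : X →L[𝕜] X),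
    HasDenseIrregularManifold T ∧ ¬ DenselyUniformlyLiYorke T :=
  ⟨XX 𝕜, inferInstance, inferInstance, inferInstance, TT 𝕜,
    ⟨YY, YY_dense, fun _ hy hy0 => irregular_YY hy hy0⟩, not_uniform⟩

end

end Pool.Agent.Results.MP_515085_an.UltraShift
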